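import Pool.Agent.W2helper37.SG.Stm

/-!
# Project SG, piece NET: the odd part of the action and the operator `Z` are algebraic
-/

set_option autoImplicit false
set_option linter.unusedSectionVars false
set_option linter.unusedSimpArgs false
set_option backward.isDefEq.respectTransparency false
set_option backward.defeqAttrib.useBackward true

open CategoryTheory Limits MonoidalCategory
open Pool.Agent.Y112.SR Pool.Agent.Y112.KD Pool.Agent.Y112.SC
open Pool.Agent.W2helper37.SG

namespace Pool.Agent.W2helper12.SG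

universe v u w

section

variable {C : Type u} [Category.{v} C] [Preadditive C] [Linear ℚ C] [MonoidalCategory C]
  [MonoidalPreadditive C] [MonoidalLinear ℚ C] [SymmetricCategory C]
  [RightRigidCategory C] {K : Type w} [Field K] (R : SuperRealisation C K)
  {ι : Type} [Fintype ι] [DecidableEq ι]

/-- The operator with the matrix `A`. -/
noncomputable def mat {M X : C} (e : ι → ι → (R.H.obj M ⟶ R.H.obj M))
    (A : ι → ι → Module.End K (R.H.obj X)) : R.H.obj (M ⊗ X) ⟶ R.H.obj (M ⊗ X) :=
  ∑ i, ∑ k, bx R (e i k) (ModuleCat.ofHom (A k i))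

lemma map_whiskerLeft_par {M X : C} (g : X ⟶ X) (hg : R.H.map g = R.par X) :
    R.H.map (M ◁ g) = bx R (𝟙 (R.H.obj M)) (R.par X) := by
  rw [← hg, ← CategoryTheory.Functor.map_id, bx_map, id_tensorHom]

lemma mat_conj {M X : C} (e : ι → ι → (R.H.obj M ⟶ R.H.obj M))
    (A : ι → ι → Module.End K (R.H.obj X)) (p : R.H.obj X ⟶ R.H.obj X) :
    bx R (𝟙 (R.H.obj M)) p ≫ mat R e A ≫ bx R (𝟙 (R.H.obj M)) p =
      mat R e (fun k i => p.hom * A k i * p.hom) := by
  simp only [mat, Preadditive.sum_comp, Preadditive.comp_sum, bx_comp, Category.id_comp,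
    Category.comp_id]
  rfl

lemma mat_smul {M X : C} (e : ι → ι → (R.H.obj M ⟶ R.H.obj M))
    (A : ι → ι → Module.End K (R.H.obj X)) (c : K) :
    c • mat R e A = mat R e (fun k i => c • A k i) := by
  simp only [mat, Finset.smul_sum]
  refine Finset.sum_congr rfl fun i _ => Finset.sum_congr rfl fun k _ => ?_
  rw [← bx_smul_right]
  rfl

lemma bx_neg_right {Q X : C} (a : R.H.obj Q ⟶ R.H.obj Q) (b : R.H.obj X ⟶ R.H.obj X) :
    bx R a (-b) = - bx R a b := by
  have := bx_smul_right R (-1 : K) a b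
  simpa using this

lemma mat_sub {M X : C} (e : ι → ι → (R.H.obj M ⟶ R.H.obj M))
    (A B : ι → ι → Module.End K (R.H.obj X)) :
    mat R e A - mat R e B = mat R e (fun k i => A k i - B k i) := by
  simp only [mat, ← Finset.sum_sub_distrib]
  refine Finset.sum_congr rfl fun i _ => Finset.sum_congr rfl fun k _ => ?_
  rw [sub_eq_add_neg, ← bx_neg_right, ← bx_add_right]
  congr 1
  rw [sub_eq_add_neg]
  rfl

lemma bx_sum_right {Q X : C} {κ : Type} (s : Finset κ) (a : R.H.obj Q ⟶ R.H.obj Q)
    (b : κ → (R.H.obj X ⟶ R.H.obj X)) : bx R a (∑ k ∈ s, b k) = ∑ k ∈ s, bx R a (b k) := by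
  classical
  induction s using Finset.induction_on with
  | empty =>
    rw [Finset.sum_empty, Finset.sum_empty]
    have := bx_smul_right R (0 : K) a (0 : R.H.obj X ⟶ R.H.obj X)
    simpa using this
  | insert k s hk ih => rw [Finset.sum_insert hk, Finset.sum_insert hk, bx_add_right, ih]

lemma ofHom_sum {V : Type w} [AddCommGroup V] [Module K V] {κ : Type} (s : Finset κ)
    (f : κ → Module.End K V) :
    ModuleCat.ofHom (∑ k ∈ s, f k) = ∑ k ∈ s, (ModuleCat.ofHom (f k) :
      ModuleCat.of K V ⟶ ModuleCat.of K V) := by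
  apply ModuleCat.hom_ext
  rw [ModuleCat.hom_sum]
  rfl

lemma mat_comp {M X : C} {o : ι → Bool} {e : ι → ι → (R.H.obj M ⟶ R.H.obj M)}
    (he : Units R M o e) (A B : ι → ι → Module.End K (R.H.obj X)) :
    mat R e A ≫ mat R e B = mat R e (fun l i => ∑ k, B l k * A k i) := by
  have h1 : ∀ (i k j l : ι), bx R (if k = j then e i l else 0)
      (ModuleCat.ofHom (A k i) ≫ ModuleCat.ofHom (B l j)) =
      if k = j then bx R (e i l) (ModuleCat.ofHom (B l k * A k i)) else 0 := by
    intro i k j l
    split_ifs with h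
    · subst h
      rfl
    · rw [bx_zero_left]
  have h2 : mat R e A ≫ mat R e B = ∑ i, ∑ k, ∑ j, ∑ l,
      (if k = j then bx R (e i l) (ModuleCat.ofHom (B l k * A k i)) else 0) := by
    simp only [mat, Preadditive.sum_comp]
    refine Finset.sum_congr rfl fun i _ => Finset.sum_congr rfl fun k _ => ?_
    simp only [Preadditive.comp_sum]
    refine Finset.sum_congr rfl fun j _ => Finset.sum_congr rfl fun l _ => ?_
    rw [bx_comp, he.mul, h1]
  rw [h2, mat]
  refine Finset.sum_congr rfl fun i _ => ?_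
  have h3 : ∀ l, bx R (e i l) (ModuleCat.ofHom (∑ k, B l k * A k i)) =
      ∑ k, bx R (e i l) (ModuleCat.ofHom (B l k * A k i)) := by
    intro l
    rw [← bx_sum_right]
    congr 1
    exact ofHom_sum _ _
  simp only [h3]
  rw [Finset.sum_comm (s := Finset.univ) (t := Finset.univ)
    (f := fun l k => bx R (e i l) (ModuleCat.ofHom (B l k * A k i)))]
  refine Finset.sum_congr rfl fun k _ => ?_
  rw [Finset.sum_comm]
  refine Finset.sum_congr rfl fun l _ => ?_
  rw [Finset.sum_ite_eq Finset.univ k, if_pos (Finset.mem_univ k)]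

lemma PT_sum {Q X : C} {κ : Type} (s : Finset κ)
    (f : κ → (R.H.obj (Q ⊗ X) ⟶ R.H.obj (Q ⊗ X))) :
    PT R (∑ k ∈ s, f k) = ∑ k ∈ s, PT R (f k) := by
  classical
  induction s using Finset.induction_on with
  | empty =>
    rw [Finset.sum_empty, Finset.sum_empty]
    have := PT_smul R (0 : K) (0 : R.H.obj (Q ⊗ X) ⟶ R.H.obj (Q ⊗ X))
    simpa using this
  | insert k s hk ih => rw [Finset.sum_insert hk, Finset.sum_insert hk, PT_add, ih]

lemma sg_sq (b : Bool) : sg K b * sg K b = 1 := by
  cases b <;> simp [sg]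

lemma e_par {M : C} {o : ι → Bool} {e : ι → ι → (R.H.obj M ⟶ R.H.obj M)}
    (he : Units R M o e) (i l : ι) : e i l ≫ R.par M = sg K (o l) • e i l := by
  rw [he.par, Preadditive.comp_sum]
  have h1 : ∀ j, e i l ≫ (sg K (o j) • e j j) = if l = j then sg K (o l) • e i l else 0 := by
    intro j
    rw [Linear.comp_smul, he.mul]
    split_ifs with h
    · subst h
      rfl
    · rw [smul_zero]
  simp only [h1]
  rw [Finset.sum_ite_eq Finset.univ l, if_pos (Finset.mem_univ l)]

lemma par_e {M : C} {o : ι → Bool} {e : ι → ι → (R.H.obj M ⟶ R.H.obj M)}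
    (he : Units R M o e) (i l : ι) : R.par M ≫ e i l = sg K (o i) • e i l := by
  rw [he.par, Preadditive.sum_comp]
  have h1 : ∀ j, (sg K (o j) • e j j) ≫ e i l = if j = i then sg K (o i) • e i l else 0 := by
    intro j
    rw [Linear.smul_comp, he.mul]
    split_ifs with h
    · subst h
      rfl
    · rw [smul_zero]
  simp only [h1]
  rw [Finset.sum_ite_eq' Finset.univ i, if_pos (Finset.mem_univ i)]

end

theorem p_net : P_NET.{v, u, w} := by
  intro hbrx C _ _ _ _ _ _ _ _ K _ R M X ι _ _ o e he a A hA g hg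
  have hK := R_charZero R
  have h2 : (2 : K) ≠ 0 := two_ne_zero
  have hra : R.H.map a = mat R e A := hA.re
  set N : ι → ι → Module.End K (R.H.obj X) := fun k i => if o k ≠ o i then A k i else 0 with hN
  have hpp : (R.par X).hom * (R.par X).hom = 1 := by
    have := congrArg ModuleCat.Hom.hom (R.par_sq X)
    exact this
  have hν : R.H.map ((2⁻¹ : ℚ) • (a - (M ◁ g) ≫ a ≫ (M ◁ g))) = mat R e N := by
    rw [R_smul, Functor.map_sub, Functor.map_comp, Functor.map_comp,
      map_whiskerLeft_par R g hg, hra, mat_conj, mat_sub, mat_smul]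
    congr 1
    funext k i
    have h3 : (R.par X).hom * A k i * (R.par X).hom = (sg K (o k) * sg K (o i)) • A k i := by
      rw [hA.par k i, smul_mul_assoc, mul_assoc, hpp, mul_one]
    rw [h3, hN]
    push_cast
    by_cases h : o k = o i
    · simp only [h, sg_sq, one_smul, sub_self, smul_zero, ne_eq, not_true_eq_false, if_false]
    · have h4 : sg K (o k) * sg K (o i) = -1 := by
        revert h
        cases o k <;> cases o i <;> simp [sg]
      rw [h4, if_pos h, neg_one_smul, sub_neg_eq_add, ← two_smul K, smul_smul, inv_mul_cancel₀ h2,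
        one_smul]
  refine ⟨(2⁻¹ : ℚ) • (a - (M ◁ g) ≫ a ≫ (M ◁ g)), ptr ((β_ X M).hom ≫
    (((2⁻¹ : ℚ) • (a - (M ◁ g) ≫ a ≫ (M ◁ g))) ≫ ((2⁻¹ : ℚ) • (a - (M ◁ g) ≫ a ≫ (M ◁ g)))) ≫
    (β_ M X).hom), hν, ?_⟩
  generalize (2⁻¹ : ℚ) • (a - (M ◁ g) ≫ a ≫ (M ◁ g)) = ν at hν ⊢
  have hNpar : ∀ k i, (R.par X).hom * N k i = (sg K (o k) * sg K (o i)) • (N k i * (R.par X).hom) := by
    intro k i
    rw [hN]
    by_cases h : o k = o i
    · simp only [h, ne_eq, not_true_eq_false, if_false, mul_zero, zero_mul, smul_zero]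
    · simp only [ne_eq, h, not_false_eq_true, if_true]
      exact hA.par k i
  set W : ι → ι → Module.End K (R.H.obj X) := fun l i => ∑ k, N l k * N k i with hW
  have hW0 : ∀ l i, o l ≠ o i → W l i = 0 := by
    intro l i hli
    rw [hW]
    refine Finset.sum_eq_zero fun k _ => ?_
    rw [hN]
    by_cases h1 : o l = o k
    · simp [h1]
    · have h3 : o k = o i := by
        revert h1 hli
        cases o l <;> cases o k <;> cases o i <;> simp
      simp [h3]
  have hWp : ∀ l i, o l = o i → (R.par X).hom * W l i = W l i * (R.par X).hom := by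
    intro l i hli
    rw [hW]
    simp only [Finset.mul_sum, Finset.sum_mul]
    refine Finset.sum_congr rfl fun k _ => ?_
    rw [← mul_assoc, hNpar, smul_mul_assoc, mul_assoc, hNpar, mul_smul_comm, smul_smul]
    have h3 : sg K (o l) * sg K (o k) * (sg K (o k) * sg K (o i)) = 1 := by
      rw [hli]
      calc sg K (o i) * sg K (o k) * (sg K (o k) * sg K (o i)) =
          (sg K (o i) * sg K (o i)) * (sg K (o k) * sg K (o k)) := by ring
        _ = 1 := by rw [sg_sq, sg_sq, one_mul]
    rw [h3, one_smul, mul_assoc]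
  have hterm : ∀ i l, R.H.map (β_ X M).hom ≫ bx R (e i l) (ModuleCat.ofHom (W l i)) ≫
      R.H.map (β_ M X).hom = bx R (ModuleCat.ofHom (W l i)) (e i l) := by
    intro i l
    by_cases hli : o l = o i
    · refine (hbrx C K R X M (ModuleCat.ofHom (W l i)) (e i l)).1 ?_ ?_
      · apply ModuleCat.hom_ext
        exact hWp l i hli
      · rw [e_par R he, par_e R he, hli]
    · rw [hW0 l i hli]
      have h3 : (ModuleCat.ofHom (0 : Module.End K (R.H.obj X)) : R.H.obj X ⟶ R.H.obj X) = 0 := rfl
      have h4 : bx R (e i l) (0 : R.H.obj X ⟶ R.H.obj X) = 0 := by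
        have := bx_smul_right R (0 : K) (e i l) (0 : R.H.obj X ⟶ R.H.obj X)
        simpa using this
      rw [h3, bx_zero_left, h4, Limits.zero_comp, Limits.comp_zero]
  rw [← PT_map, Functor.map_comp, Functor.map_comp, Functor.map_comp, hν, mat_comp R he]
  have h5 : R.H.map (β_ X M).hom ≫ mat R e (fun l i => ∑ k, N l k * N k i) ≫ R.H.map (β_ M X).hom =
      ∑ i, ∑ l, bx R (ModuleCat.ofHom (W l i)) (e i l) := by
    simp only [mat, Preadditive.sum_comp, Preadditive.comp_sum]
    exact Finset.sum_congr rfl fun i _ => Finset.sum_congr rfl fun l _ => hterm i l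
  rw [h5, PT_sum]
  simp only [PT_sum, PT_bx R h2, e_par R he]
  have h6 : ∀ i l, (LinearMap.trace K (R.H.obj M) (sg K (o l) • e i l).hom) •
      (ModuleCat.ofHom (W l i) : R.H.obj X ⟶ R.H.obj X) =
      if i = l then sg K (o i) • (ModuleCat.ofHom (W i i) : R.H.obj X ⟶ R.H.obj X) else 0 := by
    intro i l
    rw [ModuleCat.hom_smul, map_smul, he.tr, smul_eq_mul]
    split_ifs with h
    · subst h
      rw [mul_one]
    · rw [mul_zero, zero_smul]
  simp only [h6]
  have h7 : ∀ i, ∑ l, (if i = l then sg K (o i) •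
      (ModuleCat.ofHom (W i i) : R.H.obj X ⟶ R.H.obj X) else 0) =
      sg K (o i) • (ModuleCat.ofHom (W i i) : R.H.obj X ⟶ R.H.obj X) := by
    intro i
    rw [Finset.sum_ite_eq Finset.univ i, if_pos (Finset.mem_univ i)]
  simp only [h7]
  rw [ModuleCat.hom_sum]
  have h8 : ∀ i, (sg K (o i) • (ModuleCat.ofHom (W i i) : R.H.obj X ⟶ R.H.obj X)).hom =
      sg K (o i) • ∑ k with o k ≠ o i, A i k * A k i := by
    intro i
    rw [ModuleCat.hom_smul, ModuleCat.hom_ofHom, hW, Finset.sum_filter]
    congr 1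
    refine Finset.sum_congr rfl fun k _ => ?_
    rw [hN]
    by_cases h : o k = o i
    · simp [h]
    · have h' : ¬ o i = o k := fun h9 => h h9.symm
      simp [h, h']
  simp only [h8]
  rw [ZZ, XX, XX, Finset.sum_filter, Finset.sum_filter, ← Finset.sum_sub_distrib]
  refine Finset.sum_congr rfl fun i _ => ?_
  cases hi : o i
  · simp [sg, hi]
  · simp [sg, hi]

end Pool.Agent.W2helper12.SG
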