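import Pool.Agent.W2helper37.SG.Stm4
import Pool.Agent.W2helper12.SG.Net

/-!
# Project SG, piece BKA: `κ` commutes with the action of `osp(M)`
-/

set_option autoImplicit false
set_option linter.unusedSectionVars false
set_option linter.unusedSimpArgs false
set_option backward.isDefEq.respectTransparency false
set_option backward.defeqAttrib.useBackward true

open CategoryTheory Limits MonoidalCategory
open Pool.Agent.Y112.SR Pool.Agent.Y112.KD Pool.Agent.Y112.SC
open Pool.Agent.W2helper37.SG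

namespace Pool.Agent.W2helper12.SG

universe v u w

section

variable {C : Type u} [Category.{v} C] [Preadditive C] [Linear ℚ C] [MonoidalCategory C]
  [MonoidalPreadditive C] [MonoidalLinear ℚ C] [SymmetricCategory C]
  [RightRigidCategory C] {K : Type w} [Field K] (R : SuperRealisation C K)
  {ι : Type} [Fintype ι] [DecidableEq ι]

lemma bx_zero_right {Q X : C} (a : R.H.obj Q ⟶ R.H.obj Q) :
    bx R a (0 : R.H.obj X ⟶ R.H.obj X) = 0 := by
  have := bx_smul_right R (0 : K) a (0 : R.H.obj X ⟶ R.H.obj X)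
  simpa using this

lemma bx_sub_left {Q X : C} (a a' : R.H.obj Q ⟶ R.H.obj Q) (b : R.H.obj X ⟶ R.H.obj X) :
    bx R (a - a') b = bx R a b - bx R a' b := by
  have h1 := bx_smul_left R (-1 : K) a' b
  rw [neg_one_smul, neg_one_smul] at h1
  rw [sub_eq_add_neg, bx_add_left, h1, ← sub_eq_add_neg]

lemma bx_sub_right {Q X : C} (a : R.H.obj Q ⟶ R.H.obj Q) (b b' : R.H.obj X ⟶ R.H.obj X) :
    bx R a (b - b') = bx R a b - bx R a b' := by
  have h1 := bx_smul_right R (-1 : K) a b'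
  rw [neg_one_smul, neg_one_smul] at h1
  rw [sub_eq_add_neg, bx_add_right, h1, ← sub_eq_add_neg]

/-- the realisation of `κ` -/
noncomputable def kH {M : C} (σ : ι → ι) (γ : ι → K) (e : ι → ι → (R.H.obj M ⟶ R.H.obj M)) :
    R.H.obj (M ⊗ M) ⟶ R.H.obj (M ⊗ M) :=
  ∑ a, ∑ b, (γ a * (γ (σ b))⁻¹) • bx R (e a b) (e (σ a) (σ b))

variable {M : C} {σ : ι → ι} {γ : ι → K} {e : ι → ι → (R.H.obj M ⟶ R.H.obj M)} {o : ι → Bool}

lemma kH_L1 (he : Units R M o e) (k i : ι) :
    bx R (e k i) (𝟙 (R.H.obj M)) ≫ kH R σ γ e =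
      ∑ b, (γ i * (γ (σ b))⁻¹) • bx R (e k b) (e (σ i) (σ b)) := by
  simp only [kH, Preadditive.comp_sum, Linear.comp_smul, bx_comp, Category.id_comp, he.mul]
  rw [Finset.sum_eq_single i]
  · refine Finset.sum_congr rfl fun b _ => ?_
    rw [if_pos rfl]
  · intro a _ ha
    refine Finset.sum_eq_zero fun b _ => ?_
    rw [if_neg (fun h => ha h.symm), bx_zero_left, smul_zero]
  · intro h
    exact absurd (Finset.mem_univ i) h

lemma kH_L2 (he : Units R M o e) (hσ : ∀ i, σ (σ i) = i) (s : R.H.obj M ⟶ R.H.obj M) (t : ι → K)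
    (hs : ∀ a b, s ≫ e a b = t a • e a b) (k i : ι) :
    bx R s (e k i) ≫ kH R σ γ e =
      ∑ b, (γ (σ i) * (γ (σ b))⁻¹ * t (σ i)) • bx R (e (σ i) b) (e k (σ b)) := by
  simp only [kH, Preadditive.comp_sum, Linear.comp_smul, bx_comp, hs, he.mul]
  rw [Finset.sum_eq_single (σ i)]
  · refine Finset.sum_congr rfl fun b _ => ?_
    rw [if_pos (hσ i).symm, bx_smul_left, smul_smul]
  · intro a _ ha
    refine Finset.sum_eq_zero fun b _ => ?_
    rw [if_neg (fun h => ha (by rw [h, hσ])), bx_zero_right, smul_zero]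
  · intro h
    exact absurd (Finset.mem_univ _) h

lemma kH_R1 (he : Units R M o e) (k i : ι) :
    kH R σ γ e ≫ bx R (e k i) (𝟙 (R.H.obj M)) =
      ∑ a, (γ a * (γ (σ k))⁻¹) • bx R (e a i) (e (σ a) (σ k)) := by
  simp only [kH, Preadditive.sum_comp, Linear.smul_comp, bx_comp, Category.comp_id, he.mul]
  refine Finset.sum_congr rfl fun a _ => ?_
  rw [Finset.sum_eq_single k]
  · rw [if_pos rfl]
  · intro b _ hb
    rw [if_neg hb, bx_zero_left, smul_zero]
  · intro h
    exact absurd (Finset.mem_univ k) h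

lemma kH_R2 (he : Units R M o e) (hσ : ∀ i, σ (σ i) = i) (s : R.H.obj M ⟶ R.H.obj M) (t : ι → K)
    (hs : ∀ a b, e a b ≫ s = t b • e a b) (k i : ι) :
    kH R σ γ e ≫ bx R s (e k i) =
      ∑ a, (γ a * (γ k)⁻¹ * t (σ k)) • bx R (e a (σ k)) (e (σ a) i) := by
  simp only [kH, Preadditive.sum_comp, Linear.smul_comp, bx_comp, hs, he.mul]
  refine Finset.sum_congr rfl fun a _ => ?_
  rw [Finset.sum_eq_single (σ k)]
  · rw [if_pos (hσ k), bx_smul_left, smul_smul, hσ]
  · intro b _ hb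
    rw [if_neg (fun h => hb (by rw [← h, hσ])), bx_zero_right, smul_zero]
  · intro h
    exact absurd (Finset.mem_univ _) h

/-- the matrix of the action of `osp(M)` on `M` -/
noncomputable def Ac (o : ι → Bool) (σ : ι → ι) (γ : ι → K)
    (e : ι → ι → (R.H.obj M ⟶ R.H.obj M)) (k i : ι) :
    R.H.obj M ⟶ R.H.obj M :=
  cc K (o i) (o k) • e k i - (γ i * (γ (σ k))⁻¹) • e (σ i) (σ k)

lemma P_left (he : Units R M o e) {N : ι → ℤ} (hF : FormIdx o σ γ N)
    (s : R.H.obj M ⟶ R.H.obj M) (t : ι → K) (k i : ι)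
    (ht : ∀ a, t a = if o k = o i then 1 else sg K (o a))
    (hs : ∀ a b, s ≫ e a b = t a • e a b) :
    (bx R (Ac R o σ γ e k i) (𝟙 (R.H.obj M)) + bx R s (Ac R o σ γ e k i)) ≫ kH R σ γ e = 0 := by
  have hσ := hF.inv
  rw [Ac, bx_sub_left, bx_sub_right, bx_smul_left, bx_smul_left, bx_smul_right, bx_smul_right]
  simp only [Preadditive.add_comp, Preadditive.sub_comp, Linear.smul_comp]
  rw [kH_L1 R he, kH_L1 R he, kH_L2 R he hσ s t hs, kH_L2 R he hσ s t hs, hσ k]
  simp only [Finset.smul_sum, smul_smul]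
  rw [← Finset.sum_sub_distrib, ← Finset.sum_sub_distrib, ← Finset.sum_add_distrib]
  refine Finset.sum_eq_zero fun b _ => ?_
  have hk : γ (σ k) = sg K (o k) * γ k := hF.sym k
  have hi : γ (σ i) = sg K (o i) * γ i := hF.sym i
  have hk0 := hF.ne k
  have hk1 := hF.ne (σ k)
  have hi0 := hF.ne i
  have e1 : cc K (o i) (o k) * (γ i * (γ (σ b))⁻¹) =
      γ i * (γ (σ k))⁻¹ * (γ k * (γ (σ b))⁻¹ * t k) := by
    rw [ht, hk]
    cases hok : o k <;> cases hoi : o i <;> simp [Pool.Agent.W2helper37.SG.cc, sg] <;> field_simp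
  have e2 : γ i * (γ (σ k))⁻¹ * (γ (σ k) * (γ (σ b))⁻¹) =
      cc K (o i) (o k) * (γ (σ i) * (γ (σ b))⁻¹ * t (σ i)) := by
    rw [ht, hi, hF.par i, mul_assoc (γ i), ← mul_assoc (γ (σ k))⁻¹, inv_mul_cancel₀ hk1]
    cases hok : o k <;> cases hoi : o i <;> simp [Pool.Agent.W2helper37.SG.cc, sg]
  rw [e1, e2]
  abel

lemma P_right (he : Units R M o e) {N : ι → ℤ} (hF : FormIdx o σ γ N)
    (s : R.H.obj M ⟶ R.H.obj M) (t : ι → K) (k i : ι)
    (ht : ∀ a, t a = if o k = o i then 1 else sg K (o a))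
    (hs : ∀ a b, e a b ≫ s = t b • e a b) :
    kH R σ γ e ≫ (bx R (Ac R o σ γ e k i) (𝟙 (R.H.obj M)) + bx R s (Ac R o σ γ e k i)) = 0 := by
  have hσ := hF.inv
  rw [Ac, bx_sub_left, bx_sub_right, bx_smul_left, bx_smul_left, bx_smul_right, bx_smul_right]
  simp only [Preadditive.comp_add, Preadditive.comp_sub, Linear.comp_smul]
  rw [kH_R1 R he, kH_R1 R he, kH_R2 R he hσ s t hs, kH_R2 R he hσ s t hs, hσ i]
  simp only [Finset.smul_sum, smul_smul]
  rw [← Finset.sum_sub_distrib, ← Finset.sum_sub_distrib, ← Finset.sum_add_distrib]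
  refine Finset.sum_eq_zero fun a _ => ?_
  have hk : γ (σ k) = sg K (o k) * γ k := hF.sym k
  have hi : γ (σ i) = sg K (o i) * γ i := hF.sym i
  have hk0 := hF.ne k
  have hk1 := hF.ne (σ k)
  have hi0 := hF.ne i
  have e1 : cc K (o i) (o k) * (γ a * (γ (σ k))⁻¹) =
      γ i * (γ (σ k))⁻¹ * (γ a * (γ (σ i))⁻¹ * t i) := by
    rw [ht, hi, hk]
    cases hok : o k <;> cases hoi : o i <;> simp [Pool.Agent.W2helper37.SG.cc, sg] <;> field_simp
  have e2 : γ i * (γ (σ k))⁻¹ * (γ a * (γ i)⁻¹) =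
      cc K (o i) (o k) * (γ a * (γ k)⁻¹ * t (σ k)) := by
    rw [ht, hk, hF.par k]
    cases hok : o k <;> cases hoi : o i <;> simp [Pool.Agent.W2helper37.SG.cc, sg] <;> field_simp
  rw [e1, e2]
  abel

end

theorem p_bka : P_BKA.{v, u, w} := by
  intro C _ _ _ _ _ _ _ _ K _ R M Z ι _ _ o σ γ N e hF he κ hκ A' hA' D k i
  have hK := R_charZero R
  -- the realisation of `κ`
  have hκ' : R.H.map κ = kH R σ γ e := by
    rw [hκ, kH]
    refine Finset.sum_congr rfl fun a _ => Finset.sum_congr rfl fun b _ => ?_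
    rw [← bx_smul_right]
    rfl
  have hAc : (ModuleCat.ofHom (A' k i) : R.H.obj M ⟶ R.H.obj M) = Ac R o σ γ e k i := by
    rw [hA']
    rfl
  set s : R.H.obj M ⟶ R.H.obj M := if o k = o i then 𝟙 _ else R.par M with hs
  let t : ι → K := fun a => if o k = o i then 1 else sg K (o a)
  have hs1 : ∀ a b, s ≫ e a b = t a • e a b := by
    intro a b
    change s ≫ e a b = (if o k = o i then (1 : K) else sg K (o a)) • e a b
    rw [hs]
    split_ifs
    · rw [Category.id_comp, one_smul]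
    · exact par_e R he a b
  have hs2 : ∀ a b, e a b ≫ s = t b • e a b := by
    intro a b
    change e a b ≫ s = (if o k = o i then (1 : K) else sg K (o b)) • e a b
    rw [hs]
    split_ifs
    · rw [Category.comp_id, one_smul]
    · exact e_par R he a b
  set P : R.H.obj (M ⊗ M) ⟶ R.H.obj (M ⊗ M) :=
    bx R (Ac R o σ γ e k i) (𝟙 (R.H.obj M)) + bx R s (Ac R o σ γ e k i) with hP
  have hPl : P ≫ R.H.map κ = 0 := by
    rw [hκ']
    exact P_left R he hF s t k i (fun _ => rfl) hs1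
  have hPr : R.H.map κ ≫ P = 0 := by
    rw [hκ']
    exact P_right R he hF s t k i (fun _ => rfl) hs2
  have hss : bx R s s ≫ R.H.map κ = R.H.map κ ≫ bx R s s := by
    rw [hs]
    split_ifs
    · rw [bx_one, Category.id_comp, Category.comp_id]
    · rw [bx_par, R.par_natural]
  -- the action as a morphism
  set T : R.H.obj (M ⊗ (M ⊗ Z)) ⟶ R.H.obj (M ⊗ (M ⊗ Z)) :=
    bx R (Ac R o σ γ e k i) (𝟙 _) + bx R s (bx R (Ac R o σ γ e k i) (𝟙 _) +
      bx R s (ModuleCat.ofHom (D k i))) with hT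
  set T' : R.H.obj ((M ⊗ M) ⊗ Z) ⟶ R.H.obj ((M ⊗ M) ⊗ Z) :=
    bx R P (𝟙 _) + bx R (bx R s s) (ModuleCat.ofHom (D k i)) with hT'
  have hTen : tenA R o A' (tenA R o A' D) k i = T.hom := by
    rw [hT, ← hAc]
    rfl
  have h1 : T ≫ R.H.map (α_ M M Z).inv = R.H.map (α_ M M Z).inv ≫ T' := by
    rw [hT, hT', hP, ← bx_one, bx_add_right, bx_add_left R (bx R (Ac R o σ γ e k i) (𝟙 _))]
    simp only [Preadditive.add_comp, Preadditive.comp_add, bx_assoc_inv]
    abel
  have h2 : T' ≫ R.H.map (α_ M M Z).hom = R.H.map (α_ M M Z).hom ≫ T := by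
    rw [hT, hT', hP, ← bx_one R M Z, bx_add_right, bx_add_left R (bx R (Ac R o σ γ e k i) (𝟙 _))]
    simp only [Preadditive.add_comp, Preadditive.comp_add, bx_assoc]
    abel
  have h3 : T' ≫ bx R (R.H.map κ) (𝟙 _) = bx R (R.H.map κ) (𝟙 _) ≫ T' := by
    rw [hT', Preadditive.add_comp, Preadditive.comp_add, bx_comp, bx_comp, bx_comp, bx_comp, hPl,
      hPr, hss]
    simp only [Category.id_comp, Category.comp_id]
  have h4 : R.H.map (kap κ Z) = R.H.map (α_ M M Z).inv ≫ bx R (R.H.map κ) (𝟙 _) ≫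
      R.H.map (α_ M M Z).hom := by
    rw [kap, Functor.map_comp, Functor.map_comp, map_whiskerRight_eq]
  have h5 : T ≫ R.H.map (kap κ Z) = R.H.map (kap κ Z) ≫ T := by
    rw [h4, ← Category.assoc, h1, Category.assoc, ← Category.assoc T', h3, Category.assoc, h2]
    simp only [Category.assoc]
  rw [hTen]
  exact congrArg ModuleCat.Hom.hom h5

end Pool.Agent.W2helper12.SG
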